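import Pool.Agent.H891GAP.GP_MAIN
import Pool.Agent.H891GAP.GP_MAIN2
import Pool.Agent.H891GAP.GX_MAIN

set_option autoImplicit false

namespace Pool.Agent.Results.MP_1cd194_co.GapBeyondLogRanks

/-- the Euclidean plane -/
abbrev Plane := EuclideanSpace ℝ (Fin 2)

open Classical in
/-- the set of distances `|x - y|` between distinct points of `A` -/
noncomputable def distances (A : Finset Plane) : Finset ℝ :=
  ((A ×ˢ A).filter (fun p => p.1 ≠ p.2)).image (fun p => dist p.1 p.2)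

open Classical in
/-- the number of unordered pairs of distinct points of `A` at distance `d`
(half of the number of ordered pairs) -/
noncomputable def mult (A : Finset Plane) (d : ℝ) : ℕ :=
  ((A ×ˢ A).filter (fun p => p.1 ≠ p.2 ∧ dist p.1 p.2 = d)).card / 2

/-- the list of the multiplicities of the distances of `A`, in nonincreasing order -/
noncomputable def mults (A : Finset Plane) : List ℕ :=
  ((distances A).val.map (mult A)).sort (· ≥ ·)

/-- `f A r` is the multiplicity `f(d_r)` of the `r`-th most frequent distance (`r ≥ 1`),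
and `0` if `A` has fewer than `r` distances -/
noncomputable def f (A : Finset Plane) (r : ℕ) : ℕ := (mults A).getD (r - 1) 0

/-- `M r n` is the largest value of `f(d_r) - f(d_{r+1})` over the planar sets of `n` points -/
noncomputable def M (r n : ℕ) : ℝ :=
  sSup {g : ℝ | ∃ A : Finset Plane, A.card = n ∧ g = (f A r : ℝ) - f A (r + 1)}

theorem f_le (A : Finset Plane) (r : ℕ) : f A r ≤ A.card * A.card := by
  classical
  unfold f
  by_cases h : r - 1 < (mults A).length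
  · rw [List.getD_eq_getElem _ _ h]
    have hm : (mults A)[r - 1] ∈ mults A := List.getElem_mem h
    unfold mults at hm
    rw [Multiset.mem_sort, Multiset.mem_map] at hm
    obtain ⟨d, _, hd⟩ := hm
    have h1 : mult A d ≤ A.card * A.card := by
      unfold mult
      refine (Nat.div_le_self _ _).trans ?_
      refine (Finset.card_filter_le _ _).trans ?_
      rw [Finset.card_product]
    unfold mults
    exact hd ▸ h1
  · rw [List.getD_eq_default _ _ (not_lt.mp h)]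
    exact Nat.zero_le _

theorem le_M {r n : ℕ} {x : ℝ} (h : ∃ A : Finset Plane, A.card = n ∧ x ≤ (f A r : ℝ) - f A (r + 1)) :
    x ≤ M r n := by
  obtain ⟨A, hA, hx⟩ := h
  refine hx.trans (le_csSup ?_ ⟨A, hA, rfl⟩)
  refine ⟨(n : ℝ) * n, ?_⟩
  rintro g ⟨B, hB, rfl⟩
  have h1 : (f B r : ℝ) ≤ (n : ℝ) * n := by
    have := f_le B r
    rw [hB] at this
    exact_mod_cast this
  have h2 : (0 : ℝ) ≤ f B (r + 1) := Nat.cast_nonneg _
  linarith

/-- The gap between the `r`-th and the `(r+1)`-st multiplicity of a distance: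
(1) for every `s`, `M r n ≥ n / (24 * 2 ^ s)` for all large `n` and all `1 ≤ r ≤ (log n) ^ s`;
(2) for every `K ≥ 1` there is `δ > 0` with `M r n ≥ n / (64 r ^ (1/K))` for all large `n` and all
`1 ≤ r ≤ n ^ δ`;
(3) for every `0 < ε < 1`, `M r n ≥ (min (n, (n/r) ^ 2)) ^ (1 - ε)` for all large `n` and all
`1 ≤ r ≤ n ^ (1 - ε)`. -/
theorem result :
    (∀ s : ℕ, ∃ n0 : ℕ, ∀ n : ℕ, n0 ≤ n → ∀ r : ℕ, 1 ≤ r → (r : ℝ) ≤ (Real.log n) ^ s →
      (n : ℝ) / (24 * 2 ^ s) ≤ M r n) ∧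
    (∀ K : ℕ, 1 ≤ K → ∃ δ : ℝ, 0 < δ ∧ ∃ n0 : ℕ, ∀ n : ℕ, n0 ≤ n → ∀ r : ℕ, 1 ≤ r →
      (r : ℝ) ≤ (n : ℝ) ^ δ → (n : ℝ) / (64 * (r : ℝ) ^ ((1 : ℝ) / K)) ≤ M r n) ∧
    (∀ ε : ℝ, 0 < ε → ε < 1 → ∃ n0 : ℕ, ∀ n : ℕ, n0 ≤ n → ∀ r : ℕ, 1 ≤ r →
      (r : ℝ) ≤ (n : ℝ) ^ (1 - ε) → (min (n : ℝ) (((n : ℝ) / r) ^ 2)) ^ (1 - ε) ≤ M r n) := by
  refine ⟨fun s => ?_, fun K hK => ?_, fun ε hε hε1 => ?_⟩
  · obtain ⟨n0, h⟩ := H891GAP.GP_MAIN s
    exact ⟨n0, fun n hn r hr hl => le_M (h n hn r hr hl)⟩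
  · obtain ⟨δ, hδ, n0, h⟩ := H891GAP.GP_MAIN2 K hK
    exact ⟨δ, hδ, n0, fun n hn r hr hl => le_M (h n hn r hr hl)⟩
  · obtain ⟨n0, h⟩ := H891GAP.GX_MAIN ε hε hε1
    exact ⟨n0, fun n hn r hr hl => le_M (h n hn r hr hl)⟩

end Pool.Agent.Results.MP_1cd194_co.GapBeyondLogRanks
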